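import Pool.Agent.Helper386.D5V.Helper386_FF_Place

/-! A vertical vector field which is regular along a vertical prime divisor is tangent to it. -/

set_option autoImplicit false

open FF

namespace Pool.Agent.N756.TB

section

variable {L K : Type*} [Field L] [Field K] [Algebra L K]

theorem dlog_mul (F : Derivation L K K) {f g : K} (hf : f ≠ 0) (hg : g ≠ 0) :
    F (f * g) / (f * g) = F f / f + F g / g := by
  rw [F.leibniz, smul_eq_mul, smul_eq_mul]
  field_simp
  ring

theorem dlog_inv (F : Derivation L K K) {f : K} (hf : f ≠ 0) :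
    F f⁻¹ / f⁻¹ = -(F f / f) := by
  have h := dlog_mul F hf (inv_ne_zero hf)
  rw [mul_inv_cancel₀ hf, F.map_one_eq_zero, zero_div] at h
  exact (neg_eq_of_add_eq_zero_right h.symm).symm

theorem dlog_pow (F : Derivation L K K) {f : K} (hf : f ≠ 0) (n : ℕ) :
    F (f ^ n) / f ^ n = n * (F f / f) := by
  induction n with
  | zero => simp
  | succ n ih =>
    rw [pow_succ, dlog_mul F (pow_ne_zero n hf) hf, ih]
    push_cast
    ring

theorem dlog_zpow (F : Derivation L K K) {f : K} (hf : f ≠ 0) (n : ℤ) :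
    F (f ^ n) / f ^ n = n * (F f / f) := by
  cases n with
  | ofNat n => simpa using dlog_pow F hf n
  | negSucc n =>
    rw [zpow_negSucc, dlog_inv F (pow_ne_zero _ hf), dlog_pow F hf]
    push_cast
    ring

theorem reg_dlog_unit [Algebra ℂ K] (P : Place ℂ K) (F : Derivation L K K)
    (hF : ∀ f, P.Reg f → P.Reg (F f)) {u : K} (hu : P.ord u = 0) : P.Reg (F u / u) := by
  rw [div_eq_mul_inv]
  refine P.reg_mul (hF u (Or.inr hu.ge)) (Or.inr ?_)
  rw [P.ord_inv, hu, neg_zero]

theorem tan_core [Algebra ℂ L] [Algebra ℂ K] (P : Place ℂ K) (Q : Place ℂ L) (e : ℕ) (he : 0 < e)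
    (hPQ : ∀ f : L, P.ord (algebraMap L K f) = e * Q.ord f) (F : Derivation L K K)
    (hF : ∀ f, P.Reg f → P.Reg (F f)) (f : K) : P.Reg (F f / f) := by
  obtain ⟨q, hq0, hq⟩ := Q.surj
  obtain ⟨p, hp0, hp⟩ := P.surj
  have hx0 : algebraMap L K q ≠ 0 := by
    simpa using hq0
  have hpe : p ^ e ≠ 0 := pow_ne_zero e hp0
  have hε0 : algebraMap L K q / p ^ e ≠ 0 := div_ne_zero hx0 hpe
  have hε : P.ord (algebraMap L K q / p ^ e) = 0 := by
    rw [P.ord_div hx0 hpe, hPQ, hq, P.ord_pow, hp]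
    ring
  have h1 : F (algebraMap L K q / p ^ e) / (algebraMap L K q / p ^ e) + e * (F p / p) = 0 := by
    rw [← dlog_pow F hp0 e, ← dlog_mul F hε0 hpe, div_mul_cancel₀ _ hpe, F.map_algebraMap,
      zero_div]
  have hcz : CharZero K := charZero_of_injective_algebraMap (algebraMap ℂ K).injective
  have heK : (e : K) ≠ 0 := Nat.cast_ne_zero.2 he.ne'
  have h2 : P.Reg (F p / p) := by
    have h3 : F p / p = -(F (algebraMap L K q / p ^ e) / (algebraMap L K q / p ^ e)) *
        algebraMap ℂ K ((e : ℂ)⁻¹) := by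
      rw [map_inv₀, map_natCast, eq_mul_inv_iff_mul_eq₀ heK]
      linear_combination h1
    rw [h3]
    exact P.reg_mul (P.reg_neg (reg_dlog_unit P F hF hε)) (P.reg_const _)
  by_cases hf : f = 0
  · left
    rw [hf, div_zero]
  have hpa : p ^ P.ord f ≠ 0 := zpow_ne_zero _ hp0
  have hu0 : f / p ^ P.ord f ≠ 0 := div_ne_zero hf hpa
  have hu : P.ord (f / p ^ P.ord f) = 0 := by
    rw [P.ord_div hf hpa, P.ord_zpow, hp]
    ring
  have h4 : F f / f = F (f / p ^ P.ord f) / (f / p ^ P.ord f) +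
      algebraMap ℂ K (P.ord f) * (F p / p) := by
    rw [map_intCast, ← dlog_zpow F hp0 (P.ord f), ← dlog_mul F hu0 hpa, div_mul_cancel₀ _ hpa]
  rw [h4]
  exact P.reg_add (reg_dlog_unit P F hF hu) (P.reg_mul (P.reg_const _) h2)

end

end Pool.Agent.N756.TB
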