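import Pool.Agent.N198.TB.Def

/-!
# Project TB (helper198), part NORM: the l1 norm of the joint product
-/

set_option autoImplicit false
set_option linter.all false

namespace Pool.Agent.N756.TB

open Finset Pool.Agent.N993 Pool.Agent.N198.TB

variable {ι : Type} [DecidableEq ι] {D : Dat ι}

/-- exchange of the coordinates in `R` -/
def mix (R : Finset ι) (b b' : D.GG) : D.GG := fun i => if i ∈ R then b i else b' i

theorem mix_inv (R : Finset ι) :
    Function.Involutive (fun p : D.GG × D.GG => (mix R p.1 p.2, mix R p.2 p.1)) := by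
  intro p
  refine Prod.ext ?_ ?_
  · funext i
    simp only [mix]
    split_ifs <;> rfl
  · funext i
    simp only [mix]
    split_ifs <;> rfl

/-- independence of the coordinates in `R` and of the other coordinates -/
theorem indep [Fintype ι] (R : Finset ι) (X Y : D.GG → ℤ)
    (hX : ∀ b b' : D.GG, (∀ i ∈ R, b i = b' i) → X b = X b')
    (hY : ∀ b b' : D.GG, (∀ i, i ∉ R → b i = b' i) → Y b = Y b') :
    MM D * ∑ b, X b * Y b = (∑ b, X b) * ∑ b, Y b := by
  have e1 : (∑ b, X b) * ∑ b, Y b = ∑ p : D.GG × D.GG, X p.1 * Y p.2 := by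
    rw [Fintype.sum_prod_type, Finset.sum_mul_sum]
  have e2 : ∑ p : D.GG × D.GG, X p.1 * Y p.2 =
      ∑ p : D.GG × D.GG, X (mix R p.1 p.2) * Y (mix R p.1 p.2) := by
    refine Finset.sum_congr rfl fun p _ => ?_
    rw [hX p.1 (mix R p.1 p.2) fun i hi => by simp only [mix, if_pos hi],
      hY p.2 (mix R p.1 p.2) fun i hi => by simp only [mix, if_neg hi]]
  have e3 : ∑ p : D.GG × D.GG, X (mix R p.1 p.2) * Y (mix R p.1 p.2) =
      ∑ p : D.GG × D.GG, X p.1 * Y p.1 :=
    Equiv.sum_comp (Function.Involutive.toPerm _ (mix_inv R))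
      (fun p : D.GG × D.GG => X p.1 * Y p.1)
  rw [e1, e2, e3, Fintype.sum_prod_type]
  simp only [Finset.sum_const, Finset.card_univ, nsmul_eq_mul]
  rw [MM, Finset.mul_sum]

theorem act_one (b : D.GG) (R : Finset ι) (i : ι) :
    D.act b (one R) i = if i ∈ R then some (b i) else none := by
  unfold Dat.act one
  split_ifs
  · simp
  · rfl

theorem act_act' (a b : D.GG) (x : D.Pt) : D.act a (D.act b x) = D.act (a * b) x := by
  funext i
  unfold Dat.act
  cases x i with
  | none => rfl
  | some u => simp [mul_assoc]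

theorem join_act {T T' Q J : Finset ι} (h1 : Disjoint T Q) (h2 : Disjoint T' Q)
    (hJ : J ⊆ Q) (f g : D.Pt → ℤ) (b : D.GG) :
    join T T' Q f g (D.act b (one (T ∪ T' ∪ J))) = ∑ J' ∈ J.powerset,
      f (D.act b (one (T ∪ J'))) * g (D.act (∏ i ∈ J', D.α i) (D.act b (one (T' ∪ (J \ J'))))) := by
  have hT : ∀ i ∈ Q, i ∉ T := fun i hi hi' => Finset.disjoint_left.1 h1 hi' hi
  have hT' : ∀ i ∈ Q, i ∉ T' := fun i hi hi' => Finset.disjoint_left.1 h2 hi' hi
  unfold join
  rw [if_pos]
  · have hs : Pool.Agent.N198.TB.sq Q (D.act b (one (T ∪ T' ∪ J))) = J := by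
      ext i
      unfold Pool.Agent.N198.TB.sq
      rw [mem_filter, act_one]
      constructor
      · rintro ⟨h3, h4⟩
        by_contra h5
        apply h4
        rw [if_neg]
        simp only [mem_union, not_or]
        exact ⟨⟨hT i h3, hT' i h3⟩, h5⟩
      · intro h3
        refine ⟨hJ h3, ?_⟩
        rw [if_pos (mem_union_right _ h3)]
        simp
    rw [hs]
    refine Finset.sum_congr rfl fun J' hJ' => ?_
    have hJ'' : J' ⊆ J := mem_powerset.1 hJ'
    have e1 : rs (T ∪ J') (D.act b (one (T ∪ T' ∪ J))) = D.act b (one (T ∪ J')) := by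
      funext i
      rw [rs, act_one, act_one]
      by_cases h : i ∈ T ∪ J'
      · rw [if_pos h, if_pos h, if_pos]
        rcases mem_union.1 h with h | h
        · exact mem_union_left _ (mem_union_left _ h)
        · exact mem_union_right _ (hJ'' h)
      · rw [if_neg h, if_neg h]
    have e2 : rs (T' ∪ (Q \ J')) (D.act b (one (T ∪ T' ∪ J))) =
        D.act b (one (T' ∪ (J \ J'))) := by
      funext i
      rw [rs, act_one, act_one]
      by_cases h : i ∈ T' ∪ (J \ J')
      · rw [if_pos h]
        rcases mem_union.1 h with h' | h'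
        · rw [if_pos (mem_union_left _ h'), if_pos (mem_union_left _ (mem_union_right _ h'))]
        · have h3 := mem_sdiff.1 h'
          rw [if_pos (mem_union_right _ (mem_sdiff.2 ⟨hJ h3.1, h3.2⟩)),
            if_pos (mem_union_right _ h3.1)]
      · rw [if_neg h]
        by_cases h' : i ∈ T' ∪ (Q \ J')
        · rw [if_pos h', if_neg]
          intro h4
          rcases mem_union.1 h' with h5 | h5
          · exact h (mem_union_left _ h5)
          · have h6 := mem_sdiff.1 h5
            rcases mem_union.1 h4 with h7 | h7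
            · rcases mem_union.1 h7 with h8 | h8
              · exact hT i h6.1 h8
              · exact hT' i h6.1 h8
            · exact h (mem_union_right _ (mem_sdiff.2 ⟨h7, h6.2⟩))
        · rw [if_neg h']
    rw [e1, e2]
  · intro i h3 h4 h5
    rw [act_one, if_neg]
    simp only [mem_union, not_or]
    exact ⟨⟨h3, h4⟩, fun h => h5 (hJ h)⟩

/-- **TB/NORM** -/
theorem join_norm [Fintype ι] {T T' Q J : Finset ι} (h1 : Disjoint T Q) (h2 : Disjoint T' Q)
    (h3 : Disjoint T T') (hJ : J ⊆ Q) (f g : D.Pt → ℤ) :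
    MM D * S1 (T ∪ T' ∪ J) (join T T' Q f g) ≤
      ∑ J' ∈ J.powerset, S1 (T ∪ J') f * S1 (T' ∪ (J \ J')) g := by
  have hM : 0 ≤ MM D := by
    unfold MM
    positivity
  have step : S1 (T ∪ T' ∪ J) (join T T' Q f g) ≤ ∑ J' ∈ J.powerset, ∑ b : D.GG,
      |f (D.act b (one (T ∪ J')))| *
        |g (D.act (∏ i ∈ J', D.α i) (D.act b (one (T' ∪ (J \ J')))))| := by
    rw [Finset.sum_comm]
    unfold S1
    refine Finset.sum_le_sum fun b _ => ?_
    rw [join_act h1 h2 hJ]
    refine (Finset.abs_sum_le_sum_abs _ _).trans (le_of_eq ?_)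
    exact Finset.sum_congr rfl fun J' _ => abs_mul _ _
  refine (mul_le_mul_of_nonneg_left step hM).trans (le_of_eq ?_)
  rw [Finset.mul_sum]
  refine Finset.sum_congr rfl fun J' hJ' => ?_
  have hJ'' : J' ⊆ J := mem_powerset.1 hJ'
  rw [indep (T ∪ J') (fun b : D.GG => |f (D.act b (one (T ∪ J')))|)
    (fun b : D.GG => |g (D.act (∏ i ∈ J', D.α i) (D.act b (one (T' ∪ (J \ J')))))|)]
  · unfold S1
    congr 1
    refine Fintype.sum_equiv (Equiv.mulLeft (∏ i ∈ J', D.α i)) _ _ fun b => ?_
    rw [act_act']
    rfl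
  · intro b b' hb
    have : D.act b (one (T ∪ J')) = D.act b' (one (T ∪ J')) := by
      funext i
      rw [act_one, act_one]
      split_ifs with h
      · rw [hb i h]
      · rfl
    simp only [this]
  · intro b b' hb
    have : D.act b (one (T' ∪ (J \ J'))) = D.act b' (one (T' ∪ (J \ J'))) := by
      funext i
      rw [act_one, act_one]
      split_ifs with h
      · rw [hb i]
        intro h4
        rcases mem_union.1 h with h5 | h5
        · rcases mem_union.1 h4 with h6 | h6
          · exact Finset.disjoint_left.1 h3 h6 h5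
          · exact Finset.disjoint_left.1 h2 h5 (hJ (hJ'' h6))
        · rcases mem_union.1 h4 with h6 | h6
          · exact Finset.disjoint_left.1 h1 h6 (hJ (mem_sdiff.1 h5).1)
          · exact (mem_sdiff.1 h5).2 h6
      · rfl
    simp only [this]

end Pool.Agent.N756.TB
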