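import Pool.Agent.N204.TB.Stm

/-!
Project TB (helper204), leaf SP (helper756): spectral projectors of a matrix and of its tensor
powers.
-/

set_option autoImplicit false
set_option linter.unusedSectionVars false

open Matrix Polynomial
open Pool.Agent.N204.TB
open Pool.Agent.N996.BP (kp)

namespace Pool.Agent.N756.TB.SP

section One

variable {ι : Type} [Fintype ι] [DecidableEq ι]

theorem comm_of {A E F : Matrix ι ι ℂ} (hE : ∃ f : Polynomial ℂ, E = Polynomial.aeval A f)
    (hF : ∃ f : Polynomial ℂ, F = Polynomial.aeval A f) : E * F = F * E := by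
  obtain ⟨f, rfl⟩ := hE
  obtain ⟨g, rfl⟩ := hF
  rw [← map_mul, ← map_mul, mul_comm]

theorem pol_self (A : Matrix ι ι ℂ) : ∃ f : Polynomial ℂ, A = Polynomial.aeval A f :=
  ⟨X, by simp⟩

theorem aeval_lin (A : Matrix ι ι ℂ) (α : ℂ) :
    Polynomial.aeval A (X - C α) = A - α • (1 : Matrix ι ι ℂ) := by
  rw [map_sub, aeval_X, aeval_C, Algebra.algebraMap_eq_smul_one]

theorem pol_lin (A : Matrix ι ι ℂ) (α : ℂ) :
    ∃ f : Polynomial ℂ, A - α • (1 : Matrix ι ι ℂ) = Polynomial.aeval A f :=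
  ⟨X - C α, (aeval_lin A α).symm⟩

/-- the nilpotency in a convenient form -/
theorem nil' {A : Matrix ι ι ℂ} {S : Finset ℂ} {E : ℂ → Matrix ι ι ℂ} (h : IsSpec A S E) (α : ℂ) :
    ∃ n : ℕ, (A - α • (1 : Matrix ι ι ℂ)) ^ n * E α = 0 := by
  obtain ⟨n, hn⟩ := h.nil α
  refine ⟨n, ?_⟩
  have hc : Commute (A - α • (1 : Matrix ι ι ℂ)) (E α) := comm_of (pol_lin A α) (h.pol α)
  have hE : ∀ m : ℕ, E α ^ m * E α = E α := by
    intro m
    induction m with
    | zero => simp
    | succ m ih =>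
      have := h.mul α α
      rw [if_pos rfl] at this
      rw [pow_succ, mul_assoc, this, ih]
  have h1 := congrArg (· * E α) hn
  simp only [zero_mul] at h1
  rw [hc.mul_pow, mul_assoc, hE] at h1
  exact h1

theorem cop {α β : ℂ} (h : α ≠ β) (n m : ℕ) :
    IsCoprime ((X - C α : ℂ[X]) ^ n) ((X - C β) ^ m) :=
  IsCoprime.pow (isCoprime_X_sub_C_of_isUnit_sub (sub_ne_zero.2 h).isUnit)

theorem orth {A : Matrix ι ι ℂ} {S S' : Finset ℂ} {E E' : ℂ → Matrix ι ι ℂ} (h : IsSpec A S E)
    (h' : IsSpec A S' E') {α β : ℂ} (hab : α ≠ β) : E α * E' β = 0 := by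
  obtain ⟨n, hn⟩ := nil' h α
  obtain ⟨m, hm⟩ := nil' h' β
  obtain ⟨a, b, hco⟩ := cop hab n m
  have h1 := congrArg (Polynomial.aeval A) hco
  rw [map_add, map_mul, map_mul, map_pow, map_pow, aeval_lin, aeval_lin, map_one] at h1
  calc E α * E' β = (Polynomial.aeval A a * (A - α • (1 : Matrix ι ι ℂ)) ^ n
        + Polynomial.aeval A b * (A - β • (1 : Matrix ι ι ℂ)) ^ m) * (E α * E' β) := by
        rw [h1, one_mul]
    _ = Polynomial.aeval A a * ((A - α • (1 : Matrix ι ι ℂ)) ^ n * E α) * E' β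
        + Polynomial.aeval A b * ((A - β • (1 : Matrix ι ι ℂ)) ^ m * E' β) * E α := by
        rw [add_mul]
        congr 1
        · simp only [mul_assoc]
        · rw [comm_of (h.pol α) (h'.pol β)]
          simp only [mul_assoc]
    _ = 0 := by rw [hn, hm]; simp

theorem spec_sub {A : Matrix ι ι ℂ} {S : Finset ℂ} {E : ℂ → Matrix ι ι ℂ} (h : IsSpec A S E)
    {α : ℂ} {v : ι → ℂ} (hv : v ≠ 0) (hA : A *ᵥ v = α • v) : α ∈ S := by
  by_contra hα
  apply hv
  have hz : ∀ β ∈ S, E β *ᵥ v = 0 := by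
    intro β hβ
    have hne : α ≠ β := fun e => hα (e ▸ hβ)
    obtain ⟨n, hn⟩ := nil' h β
    have hp : ∀ k : ℕ, (A - β • (1 : Matrix ι ι ℂ)) ^ k *ᵥ v = (α - β) ^ k • v := by
      intro k
      induction k with
      | zero => simp
      | succ k ih =>
        rw [pow_succ', ← mulVec_mulVec, ih, mulVec_smul, sub_mulVec, hA, smul_mulVec, one_mulVec,
          ← sub_smul, smul_smul, pow_succ]
    have hc : Commute (A - β • (1 : Matrix ι ι ℂ)) (E β) := comm_of (pol_lin A β) (h.pol β)
    have h0 : (E β * (A - β • (1 : Matrix ι ι ℂ)) ^ n) *ᵥ v = 0 := by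
      rw [← (hc.pow_left n).eq, hn, zero_mulVec]
    rw [← mulVec_mulVec, hp, mulVec_smul] at h0
    exact (smul_eq_zero.1 h0).resolve_left (pow_ne_zero _ (sub_ne_zero.2 hne))
  calc v = (1 : Matrix ι ι ℂ) *ᵥ v := (one_mulVec v).symm
    _ = (∑ β ∈ S, E β) *ᵥ v := by rw [h.sum]
    _ = ∑ β ∈ S, E β *ᵥ v := by rw [sum_mulVec]
    _ = 0 := Finset.sum_eq_zero hz

theorem uniq {A : Matrix ι ι ℂ} {S S' : Finset ℂ} {E E' : ℂ → Matrix ι ι ℂ} (h : IsSpec A S E)
    (h' : IsSpec A S' E') : S = S' ∧ E = E' := by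
  have hS : S = S' := by
    ext α
    constructor
    · intro hα
      obtain ⟨v, hv, hA⟩ := h.eig α hα
      exact spec_sub h' hv hA
    · intro hα
      obtain ⟨v, hv, hA⟩ := h'.eig α hα
      exact spec_sub h hv hA
  subst hS
  refine ⟨rfl, ?_⟩
  funext α
  by_cases hα : α ∈ S
  · have h1 : E α = E α * E' α := by
      calc E α = E α * ∑ β ∈ S, E' β := by rw [h'.sum, mul_one]
        _ = ∑ β ∈ S, E α * E' β := by rw [Finset.mul_sum]
        _ = E α * E' α := Finset.sum_eq_single_of_mem α hα fun β _ hb => orth h h' (Ne.symm hb)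
    have h2 : E' α = E α * E' α := by
      calc E' α = (∑ β ∈ S, E β) * E' α := by rw [h.sum, one_mul]
        _ = ∑ β ∈ S, E β * E' α := by rw [Finset.sum_mul]
        _ = E α * E' α := Finset.sum_eq_single_of_mem α hα fun β _ hb => orth h h' hb
    rw [h1, ← h2]
  · rw [h.out α hα, h'.out α hα]

theorem exist (A : Matrix ι ι ℂ) : ∃ S E, IsSpec A S E := by
  classical
  set p := minpoly ℂ A with hp
  have hint : IsIntegral ℂ A := Algebra.IsIntegral.isIntegral A
  have hmon : p.Monic := minpoly.monic hint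
  have hspl : p.Splits := IsAlgClosed.splits p
  set S : Finset ℂ := p.roots.toFinset with hS
  set n : ℕ := p.natDegree + 1 with hn
  have hprod : p ∣ ∏ β ∈ S, (X - C β) ^ n := by
    have h1 : p = (p.roots.map fun a => X - C a).prod := by
      exact hspl.eq_prod_roots_of_monic hmon
    have h2 : (p.roots.map fun a => (X - C a : ℂ[X])).prod
        = ∏ β ∈ S, (X - C β) ^ (p.roots.count β) := by
      rw [Finset.prod_multiset_map_count]
    rw [h1.trans h2]
    refine Finset.prod_dvd_prod_of_dvd _ _ fun β _ => pow_dvd_pow _ ?_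
    have h3 : p.roots.count β ≤ Multiset.card p.roots := Multiset.count_le_card _ _
    have h4 : Multiset.card p.roots ≤ p.natDegree := card_roots' p
    omega
  have hkill : ∀ g : ℂ[X], (∏ β ∈ S, (X - C β) ^ n) ∣ g → Polynomial.aeval A g = 0 := by
    intro g hg
    obtain ⟨c, rfl⟩ := hprod.trans hg
    rw [map_mul, minpoly.aeval, zero_mul]
  have hcop : ∀ α ∈ S, IsCoprime ((X - C α : ℂ[X]) ^ n) (∏ β ∈ S.erase α, (X - C β) ^ n) := by
    intro α _
    refine IsCoprime.prod_right fun β hβ => cop (Ne.symm (Finset.ne_of_mem_erase hβ)) n n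
  choose! a b hab using hcop
  let f : ℂ → ℂ[X] := fun α => b α * ∏ β ∈ S.erase α, (X - C β) ^ n
  have hf1 : ∀ α ∈ S, (X - C α) ^ n ∣ 1 - f α := by
    intro α hα
    refine ⟨a α, ?_⟩
    have := hab α hα
    simp only [f]
    rw [← this]; ring
  have hf0 : ∀ α ∈ S, ∀ β, β ≠ α → β ∈ S → (X - C β) ^ n ∣ f α := by
    intro α _ β hne hβ
    exact dvd_mul_of_dvd_right (Finset.dvd_prod_of_mem (fun β => (X - C β : ℂ[X]) ^ n)
      (Finset.mem_erase.2 ⟨hne, hβ⟩)) _
  have hdvd : ∀ g : ℂ[X], (∀ β ∈ S, (X - C β) ^ n ∣ g) → (∏ β ∈ S, (X - C β) ^ n) ∣ g := by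
    intro g hg
    refine Finset.prod_dvd_of_coprime ?_ hg
    intro x _ y _ hxy
    exact cop hxy n n
  let E : ℂ → Matrix ι ι ℂ := fun α => if α ∈ S then Polynomial.aeval A (f α) else 0
  have hEin : ∀ α ∈ S, E α = Polynomial.aeval A (f α) := fun α h => if_pos h
  have hEout : ∀ α, α ∉ S → E α = 0 := fun α h => if_neg h
  have hsum : ∑ α ∈ S, E α = 1 := by
    rw [Finset.sum_congr rfl hEin, ← map_sum]
    have h1 : Polynomial.aeval A (1 - ∑ α ∈ S, f α) = 0 := by
      apply hkill
      apply hdvd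
      intro β hβ
      rw [← Finset.add_sum_erase S f hβ, ← sub_sub]
      refine dvd_sub (hf1 β hβ) (Finset.dvd_sum fun α hα => ?_)
      exact hf0 α (Finset.mem_of_mem_erase hα) β (Ne.symm (Finset.ne_of_mem_erase hα)) hβ
    rw [map_sub, map_one, sub_eq_zero] at h1
    exact h1.symm
  have horth : ∀ α β, α ≠ β → E α * E β = 0 := by
    intro α β hne
    by_cases hα : α ∈ S
    · by_cases hβ : β ∈ S
      · rw [hEin α hα, hEin β hβ, ← map_mul]
        apply hkill
        apply hdvd
        intro γ hγ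
        by_cases hg : γ = α
        · subst hg
          exact dvd_mul_of_dvd_right (hf0 β hβ γ hne hγ) _
        · exact dvd_mul_of_dvd_left (hf0 α hα γ hg hγ) _
      · rw [hEout β hβ, mul_zero]
    · rw [hEout α hα, zero_mul]
  refine ⟨S, E, hEout, ?_, hsum, ?_, ?_, ?_⟩
  · intro α hα
    have hroot : (minpoly ℂ (Matrix.toLin' A)).IsRoot α := by
      rw [Matrix.minpoly_toLin']
      rw [hS, Multiset.mem_toFinset] at hα
      exact (mem_roots'.1 hα).2
    have hev := Module.End.hasEigenvalue_of_isRoot hroot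
    obtain ⟨v, hv⟩ := hev.exists_hasEigenvector
    refine ⟨v, hv.2, ?_⟩
    have := hv.apply_eq_smul
    rwa [Matrix.toLin'_apply] at this
  · intro α β
    by_cases hne : α = β
    · subst hne
      rw [if_pos rfl]
      by_cases hα : α ∈ S
      · calc E α * E α = ∑ β ∈ S, E α * E β :=
              (Finset.sum_eq_single_of_mem α hα fun β _ hb => horth α β (Ne.symm hb)).symm
          _ = E α * ∑ β ∈ S, E β := by rw [Finset.mul_sum]
          _ = E α := by rw [hsum, mul_one]
      · rw [hEout α hα, zero_mul]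
    · rw [if_neg hne, horth α β hne]
  · intro α
    by_cases hα : α ∈ S
    · refine ⟨n, ?_⟩
      rw [hEin α hα, ← aeval_lin, ← map_mul, ← map_pow]
      apply hkill
      apply hdvd
      intro β hβ
      rw [mul_pow]
      by_cases hb : β = α
      · subst hb
        exact dvd_mul_right _ _
      · exact dvd_mul_of_dvd_right ((hf0 α hα β hb hβ).trans (dvd_pow_self _ (by omega))) _
    · rw [hEout α hα, mul_zero]
      exact IsNilpotent.zero
  · intro α
    by_cases hα : α ∈ S
    · exact ⟨f α, hEin α hα⟩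
    · exact ⟨0, by rw [hEout α hα, map_zero]⟩

end One

/-- Task SP1. -/
theorem sp1 : S_SP1 := by
  intro ι _ _ A
  exact ⟨exist A, fun S E S' E' h h' => uniq h h'⟩

section Two

variable {ι : Type} [Fintype ι] [DecidableEq ι] {κ : Type} [Fintype κ] [DecidableEq κ]

theorem kpm_apply (g : κ → Matrix ι ι ℂ) (i j : κ → ι) : kpm g i j = ∏ k, g k (i k) (j k) := rfl

theorem kp_eq (g : Matrix ι ι ℂ) : kp κ g = kpm fun _ => g := rfl

theorem kpm_mul (g h : κ → Matrix ι ι ℂ) : kpm g * kpm h = kpm fun k => g k * h k := by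
  ext i j
  simp only [kpm_apply, Matrix.mul_apply]
  rw [Finset.prod_univ_sum]
  refine Finset.sum_congr (by ext; simp) fun a _ => ?_
  rw [Finset.prod_mul_distrib]

theorem kpm_one : kpm (fun _ : κ => (1 : Matrix ι ι ℂ)) = 1 := by
  rw [← kp_eq]
  exact Pool.Agent.N996.BP.kp_one

theorem kpm_zero {g : κ → Matrix ι ι ℂ} {k : κ} (hk : g k = 0) : kpm g = 0 := by
  ext i j
  rw [kpm_apply]
  refine Finset.prod_eq_zero (Finset.mem_univ k) ?_
  rw [hk]; rfl

theorem kpm_smul (c : κ → ℂ) (g : κ → Matrix ι ι ℂ) :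
    kpm (fun k => c k • g k) = (∏ k, c k) • kpm g := by
  ext i j
  rw [kpm_apply, Matrix.smul_apply, kpm_apply, smul_eq_mul, ← Finset.prod_mul_distrib]
  rfl

theorem kpm_sum (S : Finset ℂ) (E : ℂ → Matrix ι ι ℂ) :
    ∑ α ∈ Fintype.piFinset (fun _ : κ => S), kpm (fun k => E (α k))
      = kpm fun _ : κ => ∑ α ∈ S, E α := by
  ext i j
  rw [kpm_apply, Matrix.sum_apply]
  simp only [Matrix.sum_apply]
  rw [Finset.prod_univ_sum]
  rfl

theorem kpm_comm {g h : κ → Matrix ι ι ℂ} (H : ∀ k, g k * h k = h k * g k) :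
    kpm g * kpm h = kpm h * kpm g := by
  rw [kpm_mul, kpm_mul]
  congr 1
  funext k
  exact H k

/-- the matrix `g` in slot `k` -/
noncomputable def sl (k : κ) (g : Matrix ι ι ℂ) : Matrix (κ → ι) (κ → ι) ℂ :=
  kpm fun j => if j = k then g else 1

theorem sl_mul (k : κ) (g h : Matrix ι ι ℂ) : sl k g * sl k h = sl k (g * h) := by
  unfold sl
  rw [kpm_mul]
  congr 1
  funext j
  split_ifs <;> simp

theorem sl_one (k : κ) : sl k (1 : Matrix ι ι ℂ) = 1 := by
  unfold sl
  simp only [ite_self]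
  exact kpm_one

theorem sl_pow (k : κ) (g : Matrix ι ι ℂ) (n : ℕ) : sl k g ^ n = sl k (g ^ n) := by
  induction n with
  | zero => rw [pow_zero, pow_zero, sl_one]
  | succ n ih => rw [pow_succ, ih, sl_mul, pow_succ]

theorem sl_apply (k : κ) (g : Matrix ι ι ℂ) (i j : κ → ι) :
    sl k g i j = g (i k) (j k) * ∏ l ∈ Finset.univ.erase k, (1 : Matrix ι ι ℂ) (i l) (j l) := by
  unfold sl
  rw [kpm_apply, ← Finset.mul_prod_erase _ _ (Finset.mem_univ k), if_pos rfl]
  congr 1
  refine Finset.prod_congr rfl fun l hl => ?_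
  rw [if_neg (Finset.ne_of_mem_erase hl)]

theorem sl_sub (k : κ) (g : Matrix ι ι ℂ) (a : ℂ) :
    sl k (g - a • (1 : Matrix ι ι ℂ)) = sl k g - a • (1 : Matrix (κ → ι) (κ → ι) ℂ) := by
  rw [← sl_one k]
  ext i j
  rw [Matrix.sub_apply, Matrix.smul_apply, sl_apply, sl_apply, sl_apply, Matrix.sub_apply,
    Matrix.smul_apply, smul_eq_mul, smul_eq_mul]
  ring

theorem sl_comm {k l : κ} {g h : Matrix ι ι ℂ} (H : g * h = h * g) :
    sl k g * sl l h = sl l h * sl k g := by
  unfold sl
  apply kpm_comm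
  intro j
  split_ifs <;> simp [H]

theorem prod_slots (A : Matrix ι ι ℂ) (α : κ → ℂ) (w : (κ → ι) → ℂ) (T : Finset κ)
    (h : ∀ k ∈ T, sl k A *ᵥ w = α k • w) :
    kpm (fun k => if k ∈ T then A else 1) *ᵥ w = (∏ k ∈ T, α k) • w := by
  induction T using Finset.induction_on with
  | empty => simp [kpm_one]
  | insert a T ha ih =>
    have h1 : kpm (fun k => if k ∈ insert a T then A else 1)
        = kpm (fun k => if k ∈ T then A else 1) * sl a A := by
      unfold sl
      rw [kpm_mul]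
      congr 1
      funext k
      by_cases hk : k = a
      · subst hk
        simp [ha]
      · simp [hk]
    rw [h1, ← mulVec_mulVec, h a (Finset.mem_insert_self a T), mulVec_smul,
      ih fun k hk => h k (Finset.mem_insert_of_mem hk), smul_smul, Finset.prod_insert ha]

end Two

/-- an eigenvector made out of a vector killed by a power -/
theorem step {N : Type} [Fintype N] [DecidableEq N] (D : Matrix N N ℂ) (w : N → ℂ) (hw : w ≠ 0)
    (n : ℕ) (h : D ^ n *ᵥ w = 0) : ∃ j : ℕ, D ^ j *ᵥ w ≠ 0 ∧ D *ᵥ (D ^ j *ᵥ w) = 0 := by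
  classical
  have hex : ∃ m : ℕ, D ^ m *ᵥ w = 0 := ⟨n, h⟩
  have h0 : Nat.find hex ≠ 0 := by
    intro h0
    have := Nat.find_spec hex
    rw [h0, pow_zero, one_mulVec] at this
    exact hw this
  obtain ⟨m, hm⟩ := Nat.exists_eq_succ_of_ne_zero h0
  refine ⟨m, Nat.find_min hex (by omega), ?_⟩
  have := Nat.find_spec hex
  rw [hm, Nat.succ_eq_add_one, pow_succ', ← mulVec_mulVec] at this
  exact this

/-- Task SP2. -/
theorem sp2 : S_SP2 := by
  intro ι _ _ A S E h κ _ _
  refine ⟨?_, ?_, ?_, ?_, ?_⟩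
  · rw [kpm_sum, h.sum, kpm_one]
  · intro α β
    by_cases hab : α = β
    · subst hab
      rw [if_pos rfl, kpm_mul]
      congr 1
      funext k
      rw [h.mul, if_pos rfl]
    · rw [if_neg hab, kpm_mul]
      obtain ⟨k, hk⟩ := Function.ne_iff.1 hab
      apply kpm_zero (k := k)
      rw [h.mul, if_neg hk]
  · intro α
    rw [kp_eq]
    exact kpm_comm fun k => comm_of (h.pol (α k)) (pol_self A)
  · intro u α
    rw [kp_eq, kpm_mul, ← kpm_smul]
    congr 1
    funext k
    unfold fun_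
    rw [Finset.sum_mul]
    by_cases hk : α k ∈ S
    · rw [Finset.sum_eq_single_of_mem (α k) hk]
      · rw [smul_mul_assoc, h.mul, if_pos rfl]
      · intro β _ hb
        rw [smul_mul_assoc, h.mul, if_neg hb, smul_zero]
    · rw [h.out _ hk]
      simp
  · intro m c v α hv hP
    set P := kpm (fun k => E (α k)) with hPdef
    set y := P *ᵥ v with hy
    have hKP : P * kp κ A = kp κ A * P := by
      rw [hPdef, kp_eq]
      exact kpm_comm fun k => comm_of (h.pol (α k)) (pol_self A)
    have hPP : P * P = P := by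
      rw [hPdef, kpm_mul]
      congr 1
      funext k
      rw [h.mul, if_pos rfl]
    have hyP : P *ᵥ y = y := by rw [hy, mulVec_mulVec, hPP]
    have hyK : (kp κ A) ^ m *ᵥ y = c • y := by
      have hc : Commute P (kp κ A) := hKP
      rw [hy, mulVec_mulVec, ← (hc.pow_right m).eq, ← mulVec_mulVec, hv, mulVec_smul]
    have hsP : ∀ (k : κ) (g : Matrix ι ι ℂ), (∃ f : Polynomial ℂ, g = Polynomial.aeval A f) →
        sl k g * P = P * sl k g := by
      intro k g hg
      rw [hPdef]
      unfold sl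
      apply kpm_comm
      intro j
      split_ifs
      · exact comm_of hg (h.pol _)
      · simp
    have hsK : ∀ (k : κ) (g : Matrix ι ι ℂ), (∃ f : Polynomial ℂ, g = Polynomial.aeval A f) →
        sl k g * kp κ A = kp κ A * sl k g := by
      intro k g hg
      rw [kp_eq]
      unfold sl
      apply kpm_comm
      intro j
      split_ifs
      · exact comm_of hg (pol_self A)
      · simp
    -- common eigenvector
    have key : ∀ T : Finset κ, ∃ w : (κ → ι) → ℂ, w ≠ 0 ∧ P *ᵥ w = w ∧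
        (kp κ A) ^ m *ᵥ w = c • w ∧
        ∀ k ∈ T, sl k (A - α k • (1 : Matrix ι ι ℂ)) *ᵥ w = 0 := by
      intro T
      induction T using Finset.induction_on with
      | empty => exact ⟨y, hP, hyP, hyK, by simp⟩
      | insert a T ha ih =>
        obtain ⟨w, hw0, hwP, hwK, hwT⟩ := ih
        obtain ⟨n, hn⟩ := nil' h (α a)
        set D := sl a (A - α a • (1 : Matrix ι ι ℂ)) with hD
        have hDn : D ^ n *ᵥ w = 0 := by
          rw [← hwP, mulVec_mulVec, hD, sl_pow]
          have : sl a ((A - α a • (1 : Matrix ι ι ℂ)) ^ n) * P = 0 := by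
            rw [hPdef]
            unfold sl
            rw [kpm_mul]
            apply kpm_zero (k := a)
            rw [if_pos rfl, hn]
          rw [this, zero_mulVec]
        obtain ⟨j, hj0, hj1⟩ := step D w hw0 n hDn
        have hDP : Commute D P := hsP a _ (pol_lin A (α a))
        have hDK : Commute D (kp κ A) := hsK a _ (pol_lin A (α a))
        refine ⟨D ^ j *ᵥ w, hj0, ?_, ?_, ?_⟩
        · rw [mulVec_mulVec, ← (hDP.pow_left j).eq, ← mulVec_mulVec, hwP]
        · rw [mulVec_mulVec, ← ((hDK.pow_left j).pow_right m).eq, ← mulVec_mulVec, hwK,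
            mulVec_smul]
        · intro k hk
          rcases Finset.mem_insert.1 hk with rfl | hk
          · exact hj1
          · have hc : Commute (sl k (A - α k • (1 : Matrix ι ι ℂ))) D :=
              sl_comm (comm_of (pol_lin A (α k)) (pol_lin A (α a)))
            rw [mulVec_mulVec, (hc.pow_right j).eq, ← mulVec_mulVec, hwT k hk, mulVec_zero]
    obtain ⟨w, hw0, _, hwK, hwT⟩ := key Finset.univ
    have hA : ∀ k ∈ (Finset.univ : Finset κ), sl k A *ᵥ w = α k • w := by
      intro k hk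
      have := hwT k hk
      rw [sl_sub, sub_mulVec, smul_mulVec, one_mulVec, sub_eq_zero] at this
      exact this
    have hK1 : kp κ A *ᵥ w = (∏ k, α k) • w := by
      have := prod_slots A α w Finset.univ hA
      simpa [← kp_eq] using this
    have hKm : ∀ m : ℕ, (kp κ A) ^ m *ᵥ w = (∏ k, α k) ^ m • w := by
      intro m
      induction m with
      | zero => simp
      | succ m ih =>
        rw [pow_succ, ← mulVec_mulVec, hK1, mulVec_smul, ih, smul_smul, pow_succ, mul_comm]
    rw [hKm m] at hwK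
    have h2 : ((∏ k, α k) ^ m - c) • w = 0 := by rw [sub_smul, hwK, sub_self]
    exact sub_eq_zero.1 ((smul_eq_zero.1 h2).resolve_right hw0)

end Pool.Agent.N756.TB.SP
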